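import Pool.Agent.Y992.HL.Stm

/-!
# Project HL, task ZD: `Z^d`, its subgraphs and the hypercube satisfy `GD`
-/

set_option autoImplicit false

namespace Pool.Agent.Y514.HL

open Finset Pool.Agent.Y992.HL

/-- two points at distance one differ in exactly one coordinate -/
theorem coord {d : ℕ} {a b : Fin d → ℤ} (h : ∑ i, |a i - b i| = 1) :
    ∃ i, |a i - b i| = 1 ∧ ∀ j, j ≠ i → a j = b j := by
  have hne : ∃ i, |a i - b i| ≠ 0 := by
    by_contra hc
    push Not at hc
    rw [Finset.sum_eq_zero (fun i _ => hc i)] at h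
    exact zero_ne_one h
  obtain ⟨i, hi⟩ := hne
  have h0 : ∀ j, 0 ≤ |a j - b j| := fun j => abs_nonneg _
  rw [← Finset.add_sum_erase _ _ (Finset.mem_univ i)] at h
  have h1 : 0 ≤ ∑ j ∈ univ.erase i, |a j - b j| := Finset.sum_nonneg (fun j _ => h0 j)
  have h2 := h0 i
  have h3 : |a i - b i| = 1 := by omega
  have h4 : ∑ j ∈ univ.erase i, |a j - b j| = 0 := by omega
  refine ⟨i, h3, fun j hj => ?_⟩
  have h5 := (Finset.sum_eq_zero_iff_of_nonneg (fun j _ => h0 j)).1 h4 j
    (Finset.mem_erase.2 ⟨hj, Finset.mem_univ j⟩)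
  exact sub_eq_zero.1 (abs_eq_zero.1 h5)

/-- change of the distance -/
theorem change {d : ℕ} {a b v : Fin d → ℤ} {i : Fin d} (h : ∀ j, j ≠ i → a j = b j) :
    (∑ j, |v j - a j|) - ∑ j, |v j - b j| = |v i - a i| - |v i - b i| := by
  rw [← Finset.add_sum_erase _ _ (Finset.mem_univ i),
    ← Finset.add_sum_erase _ (fun j => |v j - b j|) (Finset.mem_univ i)]
  have : ∑ j ∈ univ.erase i, |v j - a j| = ∑ j ∈ univ.erase i, |v j - b j| := by
    apply Finset.sum_congr rfl
    intro j hj
    rw [h j (Finset.mem_erase.1 hj).1]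
  rw [this]
  ring

theorem sum_nn {d : ℕ} (a b : Fin d → ℤ) : 0 ≤ ∑ i, |a i - b i| :=
  Finset.sum_nonneg (fun _ _ => abs_nonneg _)

theorem gd_Zd (d : ℕ) (V : Type) (G : SimpleGraph V) (x : V → Fin d → ℤ)
    (hx : Function.Injective x) (hG : ∀ u w, G.Adj u w → ∑ i, |x u i - x w i| = 1) (K : ℕ) :
    GD G (fun u w => (∑ i, |x u i - x w i|).toNat) 1 K where
  symm v w := by simp only [abs_sub_comm]
  zero v w := by
    constructor
    · intro h
      have h1 := sum_nn (x v) (x w)
      have h2 : ∑ i, |x v i - x w i| = 0 := by omega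
      apply hx
      funext i
      have := (Finset.sum_eq_zero_iff_of_nonneg (fun j _ => abs_nonneg _)).1 h2 i
        (Finset.mem_univ i)
      exact sub_eq_zero.1 (abs_eq_zero.1 this)
    · rintro rfl
      simp
  lip v a b hab := by
    obtain ⟨i, h1, h2⟩ := coord (hG a b hab)
    have h3 := change (v := x v) h2
    have h4 := sum_nn (x v) (x a)
    have h5 := sum_nn (x v) (x b)
    have h6 : |x v i - x a i| ≤ |x v i - x b i| + |x b i - x a i| := abs_sub_le _ _ _
    rw [abs_sub_comm (x b i)] at h6
    omega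
  ne v a b _ hab := by
    obtain ⟨i, h1, h2⟩ := coord (hG a b hab)
    have h3 := change (v := x v) h2
    have h4 := sum_nn (x v) (x a)
    have h5 := sum_nn (x v) (x b)
    intro h6
    have h7 : |x v i - x a i| = |x v i - x b i| := by omega
    rcases abs_cases (x v i - x a i) with h8 | h8 <;>
      rcases abs_cases (x v i - x b i) with h9 | h9 <;>
      rcases abs_cases (x a i - x b i) with h10 | h10 <;> omega
  back v a _ S hS := by
    classical
    rw [one_mul]
    have key : ∀ y ∈ S, ∃ i, x y i ≠ x a i ∧ (∀ j, j ≠ i → x y j = x a j) ∧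
        ((x a i < x v i ∧ x y i = x a i + 1) ∨ (x v i < x a i ∧ x y i = x a i - 1)) := by
      intro y hy
      obtain ⟨hab, hD⟩ := hS y hy
      obtain ⟨i, h1, h2⟩ := coord (hG a y hab)
      have h3 := change (v := x v) h2
      have h4 := sum_nn (x v) (x a)
      have h5 := sum_nn (x v) (x y)
      have h6 : |x v i - x y i| ≤ |x v i - x a i| := by omega
      refine ⟨i, ?_, fun j hj => (h2 j hj).symm, ?_⟩
      · intro h7
        rw [h7, sub_self, abs_zero] at h1
        exact zero_ne_one h1
      · rcases abs_cases (x v i - x a i) with h8 | h8 <;>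
          rcases abs_cases (x v i - x y i) with h9 | h9 <;>
          rcases abs_cases (x a i - x y i) with h10 | h10 <;> omega
    rcases S.eq_empty_or_nonempty with h | ⟨y0, hy0⟩
    · rw [h, Finset.card_empty]; exact Nat.zero_le _
    obtain ⟨i0, -⟩ := key y0 hy0
    have : Nonempty (Fin d) := ⟨i0⟩
    choose! f hf using key
    have hinj : Set.InjOn f S := by
      intro y hy z hz hyz
      apply hx
      funext j
      obtain ⟨-, a2, a3⟩ := hf y hy
      obtain ⟨-, b2, b3⟩ := hf z hz
      rw [← hyz] at b2 b3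
      by_cases hj : j = f y
      · subst hj
        omega
      · rw [a2 j hj, b2 j hj]
    have himg : S.image f ⊆ univ.filter (fun i => x v i ≠ x a i) := by
      intro i hi
      obtain ⟨y, hy, rfl⟩ := Finset.mem_image.1 hi
      obtain ⟨-, -, a3⟩ := hf y hy
      rw [Finset.mem_filter]
      refine ⟨Finset.mem_univ _, ?_⟩
      omega
    rw [← Finset.card_image_of_injOn hinj]
    refine (Finset.card_le_card himg).trans ?_
    have h7 : ((univ.filter (fun i => x v i ≠ x a i)).card : ℤ) ≤ ∑ i, |x v i - x a i| := by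
      rw [Finset.card_filter]
      push_cast
      apply Finset.sum_le_sum
      intro i _
      split_ifs with h
      · have : x v i - x a i ≠ 0 := sub_ne_zero.2 h
        exact Int.one_le_abs this
      · exact abs_nonneg _
    have h4 := sum_nn (x v) (x a)
    omega

/-- the degrees are at most `2 d` -/
theorem deg_Zd (d : ℕ) (V : Type) [Fintype V] (G : SimpleGraph V) (x : V → Fin d → ℤ)
    (hx : Function.Injective x) (hG : ∀ u w, G.Adj u w → ∑ i, |x u i - x w i| = 1) (u : V) :
    (G.neighborSet u).ncard ≤ 2 * d := by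
  classical
  have key : ∀ w ∈ G.neighborSet u, ∃ p : Bool × Fin d,
      (∀ j, j ≠ p.2 → x w j = x u j) ∧ x w p.2 = if p.1 then x u p.2 + 1 else x u p.2 - 1 := by
    intro w hw
    obtain ⟨i, h1, h2⟩ := coord (hG u w hw)
    rcases abs_cases (x u i - x w i) with h3 | h3
    · refine ⟨(false, i), fun j hj => (h2 j hj).symm, ?_⟩
      simp only [Bool.false_eq_true, if_false]
      omega
    · refine ⟨(true, i), fun j hj => (h2 j hj).symm, ?_⟩
      simp only [if_true]
      omega
  rcases (G.neighborSet u).eq_empty_or_nonempty with h | ⟨y0, hy0⟩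
  · rw [h, Set.ncard_empty]; exact Nat.zero_le _
  have : Nonempty (Fin d) := ⟨(key y0 hy0).choose.2⟩
  choose! f hf using key
  have hinj : Set.InjOn f (G.neighborSet u) := by
    intro y hy z hz hyz
    apply hx
    funext j
    obtain ⟨a2, a3⟩ := hf y hy
    obtain ⟨b2, b3⟩ := hf z hz
    rw [← hyz] at b2 b3
    by_cases hj : j = (f y).2
    · subst hj
      rw [a3, b3]
    · rw [a2 j hj, b2 j hj]
  rw [← hinj.ncard_image]
  calc (f '' G.neighborSet u).ncard ≤ (Set.univ : Set (Bool × Fin d)).ncard :=
        Set.ncard_le_ncard (Set.subset_univ _) (Set.toFinite _)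
    _ = 2 * d := by
        rw [Set.ncard_univ, Nat.card_eq_fintype_card, Fintype.card_prod, Fintype.card_bool,
          Fintype.card_fin]

theorem bool_dist {d : ℕ} (a b : Fin d → Bool) :
    ∑ i, |(if a i then (1 : ℤ) else 0) - (if b i then 1 else 0)| =
      ((univ.filter (fun i => a i ≠ b i)).card : ℤ) := by
  rw [Finset.card_filter]
  push_cast
  apply Finset.sum_congr rfl
  intro i _
  cases a i <;> cases b i <;> simp

/-- the hypercube and its subgraphs -/
theorem gd_cube (d : ℕ) (V : Type) (G : SimpleGraph V) (x : V → Fin d → Bool)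
    (hx : Function.Injective x)
    (hG : ∀ u w, G.Adj u w → (univ.filter (fun i => x u i ≠ x w i)).card = 1) (K : ℕ) :
    GD G (fun u w => (univ.filter (fun i => x u i ≠ x w i)).card) 1 K := by
  have h := gd_Zd d V G (fun v i => if x v i then (1 : ℤ) else 0) (by
    intro u w huw
    apply hx
    funext i
    have := congrFun huw i
    simp only at this
    cases h1 : x u i <;> cases h2 : x w i <;> simp_all) (by
    intro u w huw
    rw [bool_dist, hG u w huw]
    rfl) K
  have e : (fun u w => (univ.filter (fun i => x u i ≠ x w i)).card) =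
      fun u w => (∑ i, |(if x u i then (1 : ℤ) else 0) - (if x w i then 1 else 0)|).toNat := by
    funext u w
    rw [bool_dist, Int.toNat_natCast]
  rw [e]
  exact h

/-- the degrees of the hypercube are at most `d` -/
theorem deg_cube (d : ℕ) (V : Type) [Fintype V] (G : SimpleGraph V) (x : V → Fin d → Bool)
    (hx : Function.Injective x)
    (hG : ∀ u w, G.Adj u w → (univ.filter (fun i => x u i ≠ x w i)).card = 1) (u : V) :
    (G.neighborSet u).ncard ≤ d := by
  classical
  have key : ∀ w ∈ G.neighborSet u, ∃ i : Fin d, x u i ≠ x w i ∧ ∀ j, j ≠ i → x u j = x w j := by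
    intro w hw
    obtain ⟨i, hi⟩ := Finset.card_eq_one.1 (hG u w hw)
    refine ⟨i, ?_, fun j hj => ?_⟩
    · have : i ∈ univ.filter (fun i => x u i ≠ x w i) := by rw [hi]; exact mem_singleton_self i
      exact (Finset.mem_filter.1 this).2
    · by_contra hc
      have : j ∈ univ.filter (fun i => x u i ≠ x w i) :=
        Finset.mem_filter.2 ⟨Finset.mem_univ j, hc⟩
      rw [hi, mem_singleton] at this
      exact hj this
  rcases (G.neighborSet u).eq_empty_or_nonempty with h | ⟨y0, hy0⟩
  · rw [h, Set.ncard_empty]; exact Nat.zero_le _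
  have : Nonempty (Fin d) := ⟨(key y0 hy0).choose⟩
  choose! f hf using key
  have hinj : Set.InjOn f (G.neighborSet u) := by
    intro y hy z hz hyz
    apply hx
    funext j
    obtain ⟨a2, a3⟩ := hf y hy
    obtain ⟨b2, b3⟩ := hf z hz
    rw [← hyz] at b2 b3
    by_cases hj : j = f y
    · subst hj
      clear a3 b3 hG
      revert a2 b2
      cases x u (f y) <;> cases x y (f y) <;> cases x z (f y) <;> simp
    · rw [← a3 j hj, ← b3 j hj]
  rw [← hinj.ncard_image]
  calc (f '' G.neighborSet u).ncard ≤ (Set.univ : Set (Fin d)).ncard :=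
        Set.ncard_le_ncard (Set.subset_univ _) (Set.toFinite _)
    _ = d := by rw [Set.ncard_univ, Nat.card_eq_fintype_card, Fintype.card_fin]

end Pool.Agent.Y514.HL
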